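import Pool.Agent.Helper24.HW.Stmts

set_option autoImplicit false

namespace Pool.Agent.Helper2.HW

open Equiv Equiv.Perm Pool.Agent.Helper24.HW Pool.Agent.Helper24.HWPub Pool.Agent.Helper98.Gn

/-- the pairs with increasing index -/
theorem CORE_pairs (F : Type) [Fintype F] [DecidableEq F] (k : ℕ) (e : F ≃ Fin k)
    (n : ℕ) (hn : n = Fintype.card F) :
    2 * ((Finset.univ : Finset (F × F)).filter (fun p => e p.1 < e p.2)).card ≤ n * n - n := by
  have h1 : ((Finset.univ : Finset (F × F)).filter (fun p => e p.2 < e p.1)).card =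
      ((Finset.univ : Finset (F × F)).filter (fun p => e p.1 < e p.2)).card := by
    refine Finset.card_bij (fun p _ => (p.2, p.1)) ?_ ?_ ?_
    · intro p hp
      simpa using hp
    · rintro ⟨a, b⟩ _ ⟨c, d⟩ _ h
      simp only [Prod.mk.injEq] at h
      rw [h.1, h.2]
    · rintro ⟨a, b⟩ hb
      exact ⟨(b, a), by simpa using hb, rfl⟩
  have h2 : ((Finset.univ : Finset (F × F)).filter (fun p => e p.1 < e p.2)).card +
      ((Finset.univ : Finset (F × F)).filter (fun p => e p.2 < e p.1)).card ≤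
      (Finset.univ : Finset F).offDiag.card := by
    rw [← Finset.card_union_of_disjoint]
    · refine Finset.card_le_card ?_
      intro p hp
      rw [Finset.mem_union, Finset.mem_filter, Finset.mem_filter] at hp
      rw [Finset.mem_offDiag]
      refine ⟨Finset.mem_univ _, Finset.mem_univ _, ?_⟩
      intro heq
      rcases hp with hp | hp
      · exact absurd hp.2 (by rw [heq]; exact lt_irrefl _)
      · exact absurd hp.2 (by rw [heq]; exact lt_irrefl _)
    · rw [Finset.disjoint_filter]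
      intro p _ h3 h4
      exact absurd h3 (not_lt.mpr h4.le)
  rw [Finset.offDiag_card, Finset.card_univ, ← hn] at h2
  omega

theorem CORE (hDFC : ST_DFC) (hDOR : ST_DOR) (hDSP : ST_DSP) (hDAD : ST_DAD) (hDCN : ST_DCN)
    (hPTS : ST_PTS) (hMALL : ST_MALL) (hEDG : ST_EDG) (hDOWN : ST_DOWN) (hPAR : ST_PAR) :
    ST_CORE := by
  intro T _ _ N _ ng ρ cur h hne hconn ε hε hineq
  classical
  obtain ⟨hF3, hFD⟩ := hDFC T N ng ρ cur h
  obtain ⟨_, hev⟩ := hPAR _ (der h)
  have hpts := hPTS _ (der h)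
  rw [Fintype.sum_sum_type] at hpts
  have e1 : ∑ g : ZMod N, (der h).pt (Sum.inl g) = N * cyc (ρ * ng) := by
    rw [Finset.sum_congr rfl (fun g _ => hDOR T N ng ρ cur h g), Finset.sum_const,
      Finset.card_univ, ZMod.card, smul_eq_mul]
  have e2 : ∑ s : {t // ρ t = t}, (der h).pt (Sum.inr s) =
      ∑ s : {t // ρ t = t}, N / addOrderOf (cur s.1) :=
    Finset.sum_congr rfl (fun s _ => hDSP T N ng ρ cur h s)
  rw [e1, e2] at hpts
  set r : ℕ := Nat.card {t // ρ t = t} with hr
  have hrF : r = Fintype.card {t // ρ t = t} := Nat.card_eq_fintype_card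
  set Q : ℕ := ∑ s : {t // ρ t = t}, N / addOrderOf (cur s.1) with hQ
  -- the Euler characteristic of the derived map
  have hchi0 : 6 * (der h).chi = 6 * (N * cyc (ρ * ng) + Q) - (N * (N - 1) + 2 * (N * r)) := by
    obtain ⟨c, hc⟩ := hev
    have hc2 : Nat.card (der h).D / 2 = c := by omega
    unfold LM.chi
    rw [← hpts, hc2]
    have h1 : (Nat.card (der h).D : ℤ) = N * (N - 1) + 2 * (N * r) := by
      rw [hFD]
      have : 1 ≤ N := NeZero.one_le
      push_cast [Nat.cast_sub this]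
      ring
    have h2 : 3 * (cyc ((der h).σ * (der h).α) : ℤ) = (Nat.card (der h).D : ℤ) := by
      exact_mod_cast hF3
    have h3 : (Nat.card (der h).D : ℤ) = c + c := by exact_mod_cast hc
    push_cast
    linarith
  -- identification of the vertices with special labels
  let S : Finset (ZMod N ⊕ {t // ρ t = t}) := Finset.univ.map ⟨Sum.inr, Sum.inr_injective⟩
  have hSr : ∀ s, (Sum.inr s : ZMod N ⊕ {t // ρ t = t}) ∈ S := fun s =>
    Finset.mem_map.mpr ⟨s, Finset.mem_univ _, rfl⟩
  have hSl : ∀ g, (Sum.inl g : ZMod N ⊕ {t // ρ t = t}) ∉ S := by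
    intro g hg
    obtain ⟨s, _, hs⟩ := Finset.mem_map.mp hg
    exact absurd hs (by simp)
  have hlab : ∀ s : {t // ρ t = t}, ∃ x, (der h).ℓ x = Sum.inr s := fun s =>
    ⟨Sum.inr ((0, s), true), rfl⟩
  obtain ⟨τ, hτ, m1, m2, m3, m4, m5⟩ := hMALL _ (der h) S (by
    intro A hA
    obtain ⟨s, _, rfl⟩ := Finset.mem_map.mp hA
    exact hlab s)
  have hM1 : ((der h).re τ hτ).Conn := by
    refine hDCN T N ng ρ cur h τ hτ hne hconn ?_ ?_
    · intro x g hx
      exact m1 x (by rw [hx]; exact hSl g)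
    · intro x y s hx hy
      exact m2 x y (hx.trans hy.symm) (by rw [hx]; exact hSr s)
  have hsum : ∑ A ∈ S, (((der h).pt A : ℤ) - 1) = (Q : ℤ) - r := by
    rw [Finset.sum_map]
    simp only [Function.Embedding.coeFn_mk]
    rw [Finset.sum_sub_distrib, Finset.sum_const, Finset.card_univ, hrF, hQ]
    rw [Finset.sum_congr rfl (fun s _ => by rw [hDSP T N ng ρ cur h s])]
    push_cast
    simp
  -- new edges between the special labels
  let e : {t // ρ t = t} ≃ Fin (Fintype.card {t // ρ t = t}) := Fintype.equivFin _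
  let P : Finset ({t // ρ t = t} × {t // ρ t = t}) :=
    Finset.univ.filter (fun p => e p.1 < e p.2)
  let L : List ((ZMod N ⊕ {t // ρ t = t}) × (ZMod N ⊕ {t // ρ t = t})) :=
    P.toList.map (fun p => (Sum.inr p.1, Sum.inr p.2))
  have hL : ∀ a b : {t // ρ t = t}, e a < e b → (Sum.inr a, Sum.inr b) ∈ L := by
    intro a b hab
    refine List.mem_map.mpr ⟨(a, b), ?_, rfl⟩
    rw [Finset.mem_toList]
    exact Finset.mem_filter.mpr ⟨Finset.mem_univ _, hab⟩
  have hLlen : L.length = P.card := by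
    rw [List.length_map, Finset.length_toList]
  obtain ⟨M2, c2, x2, a2⟩ := hEDG _ ((der h).re τ hτ) L (by
    intro p hp
    obtain ⟨⟨a, b⟩, hab, rfl⟩ := List.mem_map.mp hp
    rw [Finset.mem_toList] at hab
    have hlt := (Finset.mem_filter.mp hab).2
    refine ⟨?_, hlab a, hlab b⟩
    intro heq
    have : a = b := Sum.inr_injective heq
    rw [this] at hlt
    exact lt_irrefl _ hlt)
  have hPc := CORE_pairs {t // ρ t = t} _ e r hrF
  have hne1 : Nonempty ((der h).re τ hτ).D := ⟨(hlab hne.some).choose⟩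
  have hne2 : Nonempty M2.D := x2.2.2.2 hne1
  have hrr : (2 * (L.length : ℤ)) ≤ r * (r - 1) := by
    rw [hLlen]
    have h1 : r ≤ r * r := Nat.le_mul_self r
    have h2 : ((2 * P.card : ℕ) : ℤ) ≤ ((r * r - r : ℕ) : ℤ) := by exact_mod_cast hPc
    rw [Nat.cast_sub h1] at h2
    push_cast at h2
    linarith
  have hchi2 : ε ≤ M2.chi := by
    rw [hsum] at m3
    have hineq2 : 6 * ε + N * (N - 1) + 2 * N * r + 6 * (r * (r - 1)) + 6 * (Q : ℤ) ≤
        6 * N * cyc (ρ * ng) + 12 * r := by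
      rw [hQ]
      push_cast
      push_cast at hineq
      exact hineq
    have : 6 * ε ≤ 6 * M2.chi := by nlinarith
    linarith
  obtain ⟨M3, c3, x3⟩ := hDOWN _ M2 hne2 ε hε hchi2
  have hm1 : 1 ≤ cyc (ρ * ng) := by
    have : Nonempty (Quotient (SameCycle.setoid (ρ * ng))) := ⟨Quotient.mk _ hne.some.1⟩
    unfold cyc
    exact Nat.card_pos
  refine ⟨M3, c3, x3.2.2.1 (x2.2.2.1 hM1), x3.2.2.2 hne2, ?_, ?_⟩
  · intro A
    rw [x3.1, x2.1]
    rcases A with g | s
    · rw [m4 _ (hSl g), hDOR T N ng ρ cur h g]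
    · rw [m5 _ (hSr s)]
      exact hm1
  · obtain ⟨d1, d2⟩ := hDAD T N ng ρ cur h
    intro A B hAB
    refine x3.2.1 A B ?_
    rcases A with g | s <;> rcases B with g' | s'
    · exact x2.2.1 _ _ (d1 g g' (fun hh => hAB (by rw [hh])))
    · exact x2.2.1 _ _ (d2 g s').1
    · exact x2.2.1 _ _ (d2 g' s).2
    · have hne3 : e s ≠ e s' := fun hh => hAB (by rw [e.injective hh])
      rcases lt_or_gt_of_ne hne3 with hlt | hlt
      · exact (a2 _ (hL s s' hlt)).1
      · exact (a2 _ (hL s' s hlt)).2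

end Pool.Agent.Helper2.HW
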